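import Pool.Agent.H94.PG.M03

/-!
Explicit weak forms of the theorem of Mertens for `∑ 1/p`.
-/

namespace Pool.Agent.H91.Gold

open Finset Real
open scoped ArithmeticFunction.vonMangoldt

/-- Discrete partial summation. -/
theorem abel_le {w z : ℕ} (hwz : w ≤ z) {c : ℝ} (hc : 0 ≤ c) {a b f : ℕ → ℝ}
    (hf0 : ∀ k, w < k → k ≤ z → 0 ≤ f k) (hf1 : 0 ≤ f (w + 1)) (hf : ∀ k, w < k → k < z → f (k + 1) ≤ f k)
    (hA : ∀ m, w ≤ m → m ≤ z → ∑ k ∈ Ioc w m, a k ≤ ∑ k ∈ Ioc w m, b k + c) :
    ∑ k ∈ Ioc w z, a k * f k ≤ ∑ k ∈ Ioc w z, b k * f k + c * f (w + 1) := by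
  have key : ∀ m, w ≤ m → m < z →
      (∑ k ∈ Ioc w (m + 1), b k + c - ∑ k ∈ Ioc w (m + 1), a k) * f (m + 1)
        ≤ ∑ k ∈ Ioc w (m + 1), b k * f k + c * f (w + 1) - ∑ k ∈ Ioc w (m + 1), a k * f k := by
    intro m hm
    induction m, hm using Nat.le_induction with
    | base =>
      intro _
      have : Ioc w (w + 1) = {w + 1} := by ext x; simp only [mem_Ioc, mem_singleton]; omega
      rw [this]
      simp
      linarith only
    | succ m hm ih =>
      intro hmz
      have ih' := ih (by omega)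
      have e : ∀ h : ℕ → ℝ, ∑ k ∈ Ioc w (m + 1 + 1), h k = ∑ k ∈ Ioc w (m + 1), h k + h (m + 1 + 1) := by
        intro h
        rw [sum_Ioc_succ_top (by omega)]
      rw [e, e, e, e]
      have h1 := hA (m + 1) (by omega) (by omega)
      have h2 := hf (m + 1) (by omega) hmz
      have h3 : (∑ k ∈ Ioc w (m + 1), b k + c - ∑ k ∈ Ioc w (m + 1), a k) * f (m + 1 + 1)
          ≤ (∑ k ∈ Ioc w (m + 1), b k + c - ∑ k ∈ Ioc w (m + 1), a k) * f (m + 1) :=
        mul_le_mul_of_nonneg_left h2 (by linarith only [h1])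
      nlinarith only [ih', h3]
  rcases eq_or_lt_of_le hwz with h | h
  · subst h
    simp
    positivity
  · obtain ⟨m, rfl⟩ : ∃ m, z = m + 1 := ⟨z - 1, by omega⟩
    have h1 := key m (by omega) (by omega)
    have h2 := hA (m + 1) (by omega) le_rfl
    have h3 := hf0 (m + 1) (by omega) le_rfl
    have h4 : 0 ≤ (∑ k ∈ Ioc w (m + 1), b k + c - ∑ k ∈ Ioc w (m + 1), a k) * f (m + 1) :=
      mul_nonneg (by linarith only [h2]) h3
    linarith

theorem Mt_ge (n : ℕ) (hn : 1 ≤ n) : Real.log n - 1 ≤ Mt n := by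
  have hn0 : (0 : ℝ) < n := by exact_mod_cast hn
  have h1 := log_fact_ge n hn
  rw [log_fact_eq] at h1
  have h2 : ∑ d ∈ Ioc 0 n, Λ d * ((n / d : ℕ) : ℝ) ≤ n * Mt n := by
    unfold Mt
    rw [mul_sum]
    apply sum_le_sum
    intro d _
    have := @Nat.cast_div_le ℝ _ _ _ n d
    calc Λ d * ((n / d : ℕ) : ℝ) ≤ Λ d * ((n : ℝ) / d) :=
          mul_le_mul_of_nonneg_left this ArithmeticFunction.vonMangoldt_nonneg
      _ = n * (Λ d / d) := by ring
  have h3 : (n : ℝ) * (Real.log n - 1) ≤ n * Mt n := by linarith only [h1, h2]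
  exact le_of_mul_le_mul_left h3 hn0

theorem sum_inv_le_log (m n : ℕ) (hm : 1 ≤ m) (hmn : m ≤ n) :
    ∑ k ∈ Ioc m n, (1 : ℝ) / k ≤ Real.log n - Real.log m := by
  induction n, hmn using Nat.le_induction with
  | base => simp
  | succ n hn ih =>
    rw [sum_Ioc_succ_top (by omega)]
    have hn0 : (0 : ℝ) < n := by exact_mod_cast (by omega : 0 < n)
    have h1 : 1 / ((n + 1 : ℕ) : ℝ) ≤ Real.log ((n + 1 : ℕ) : ℝ) - Real.log n := by
      have h := Real.log_le_sub_one_of_pos (x := (n : ℝ) / ((n + 1 : ℕ) : ℝ)) (by positivity)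
      rw [Real.log_div hn0.ne' (by positivity)] at h
      have e : (n : ℝ) / ((n + 1 : ℕ) : ℝ) - 1 = - (1 / ((n + 1 : ℕ) : ℝ)) := by
        push_cast; field_simp; ring
      linarith only [h, e]
    linarith only [ih, h1]

/-- Weight bounding the fractional part of `n / d`. -/
noncomputable def hf (n d : ℕ) : ℝ := if 2 * d ≤ n then 1 else (n : ℝ) / d - 1

theorem frac_le {n d : ℕ} (hd : 0 < d) (hdn : d ≤ n) :
    (n : ℝ) / d ≤ ((n / d : ℕ) : ℝ) + hf n d := by
  have hd0 : (0 : ℝ) < d := by exact_mod_cast hd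
  unfold hf
  split_ifs with h
  · rw [div_le_iff₀ hd0]
    have h1 := Nat.div_add_mod n d
    have h2 := Nat.mod_lt n hd
    have h3 : n ≤ d * (n / d) + d := by omega
    have h4 : (n : ℝ) ≤ d * ((n / d : ℕ) : ℝ) + d := by exact_mod_cast h3
    linarith only [h4]
  · have : n / d = 1 := by
      apply Nat.div_eq_of_lt_le
      · omega
      · omega
    rw [this]; push_cast; linarith only

theorem hf_nonneg {n d : ℕ} (hd : 0 < d) (hdn : d ≤ n) : 0 ≤ hf n d := by
  unfold hf
  split_ifs with h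
  · norm_num
  · have hd0 : (0 : ℝ) < d := by exact_mod_cast hd
    rw [sub_nonneg, one_le_div hd0]
    exact_mod_cast hdn

theorem hf_le_one {n d : ℕ} (hd : 0 < d) : hf n d ≤ 1 := by
  unfold hf
  split_ifs with h
  · norm_num
  · have hd0 : (0 : ℝ) < d := by exact_mod_cast hd
    have : (n : ℝ) ≤ 2 * d := by exact_mod_cast (by omega : n ≤ 2 * d)
    rw [sub_le_iff_le_add, div_le_iff₀ hd0]
    linarith only [this]

theorem hf_anti {n d : ℕ} (hd : 0 < d) (_hdn : d < n) : hf n (d + 1) ≤ hf n d := by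
  by_cases h : 2 * d ≤ n
  · have : hf n d = 1 := by unfold hf; rw [if_pos h]
    rw [this]; exact hf_le_one (by omega)
  · have h' : ¬ 2 * (d + 1) ≤ n := by omega
    unfold hf
    rw [if_neg h, if_neg h']
    have hd0 : (0 : ℝ) < d := by exact_mod_cast hd
    have : (n : ℝ) / ((d + 1 : ℕ) : ℝ) ≤ n / d := by
      apply div_le_div_of_nonneg_left (by positivity) hd0
      push_cast; linarith only
    linarith only [this]

theorem sum_hf_le (n : ℕ) (hn : 2 ≤ n) : ∑ d ∈ Ioc 0 n, hf n d ≤ n * Real.log 2 + 1 := by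
  have h1 : Ioc 0 n = Ioc 0 (n / 2) ∪ Ioc (n / 2) n := by
    rw [Ioc_union_Ioc_eq_Ioc (by omega) (by omega)]
  have h2 : Disjoint (Ioc 0 (n / 2)) (Ioc (n / 2) n) := by
    rw [disjoint_left]; intro x hx hy; simp at hx hy; omega
  rw [h1, sum_union h2]
  have h3 : ∑ d ∈ Ioc 0 (n / 2), hf n d = (n / 2 : ℕ) := by
    rw [sum_congr rfl (g := fun _ => (1 : ℝ))]
    · simp
    · intro d hd
      unfold hf
      rw [if_pos]
      simp at hd; omega
  have h4 : ∑ d ∈ Ioc (n / 2) n, hf n d = n * ∑ d ∈ Ioc (n / 2) n, (1 : ℝ) / d - ((n - n / 2 : ℕ) : ℝ) := by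
    rw [sum_congr rfl (g := fun d : ℕ => (n : ℝ) * (1 / (d : ℝ)) - 1)]
    · rw [sum_sub_distrib, ← mul_sum]
      simp
    · intro d hd
      unfold hf
      rw [if_neg]
      · ring
      · simp at hd; omega
  have h5 := sum_inv_le_log (n / 2) n (by omega) (by omega)
  rw [h3, h4]
  have hm0 : (0 : ℝ) < (n / 2 : ℕ) := by exact_mod_cast (by omega : 0 < n / 2)
  rcases Nat.even_or_odd' n with ⟨m, rfl | rfl⟩
  · have e1 : 2 * m / 2 = m := by omega
    have e2 : 2 * m - 2 * m / 2 = m := by omega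
    rw [e1] at h5 ⊢
    rw [show 2 * m - m = m by omega]
    have hm : (0 : ℝ) < m := by rw [e1] at hm0; exact hm0
    have : Real.log ((2 * m : ℕ) : ℝ) - Real.log m = Real.log 2 := by
      push_cast; rw [Real.log_mul (by norm_num) hm.ne']; ring
    rw [this] at h5
    have h6 := mul_le_mul_of_nonneg_left h5 (by positivity : (0 : ℝ) ≤ ((2 * m : ℕ) : ℝ))
    linarith only [h6]
  · have e1 : (2 * m + 1) / 2 = m := by omega
    rw [e1] at h5 hm0 ⊢
    rw [show 2 * m + 1 - m = m + 1 by omega]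
    have h6 : Real.log ((2 * m + 1 : ℕ) : ℝ) - Real.log m ≤ Real.log 2 + 1 / (2 * m) := by
      have : Real.log ((2 * m + 1 : ℕ) : ℝ) - Real.log m = Real.log 2 + Real.log (((2 * m + 1 : ℕ) : ℝ) / (2 * m)) := by
        rw [← Real.log_div (by positivity) hm0.ne', ← Real.log_mul (by norm_num) (by positivity)]
        congr 1; field_simp
      rw [this]
      have h7 := Real.log_le_sub_one_of_pos (x := ((2 * m + 1 : ℕ) : ℝ) / (2 * m)) (by positivity)
      have e : ((2 * m + 1 : ℕ) : ℝ) / (2 * m) - 1 = 1 / (2 * m) := by push_cast; field_simp; ring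
      linarith only [h7, e]
    have h8 := mul_le_mul_of_nonneg_left (h5.trans h6) (by positivity : (0 : ℝ) ≤ ((2 * m + 1 : ℕ) : ℝ))
    have h9 : ((2 * m + 1 : ℕ) : ℝ) * (1 / (2 * m)) ≤ 2 := by
      rw [mul_one_div, div_le_iff₀ (by positivity)]
      push_cast
      have : (1 : ℝ) ≤ m := by exact_mod_cast (by omega : 1 ≤ m)
      linarith only [hm0, this]
    push_cast at *
    linarith only [h8, h9]

theorem card_primesLE_le (m : ℕ) (hm : 1 ≤ m) : 2 * (Nat.primesLE m).card ≤ m + 1 := by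
  have h : ∀ m : ℕ, 1 ≤ m → 2 * (Nat.primesLE m).card ≤ m + 1 ∧ 2 * (Nat.primesLE (m + 1)).card ≤ m + 2 := by
    intro m hm
    induction m, hm using Nat.le_induction with
    | base => decide
    | succ m hm ih =>
      refine ⟨ih.2, ?_⟩
      have h1 : Nat.primesLE (m + 1 + 1) ⊆ Nat.primesLE m ∪ {m + 1 + 1, m + 1} := by
        intro p hp
        rw [Nat.mem_primesLE] at hp
        simp only [mem_union, Nat.mem_primesLE, mem_insert, mem_singleton]
        by_cases h : p ≤ m
        · exact Or.inl ⟨h, hp.2⟩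
        · right; omega
      have h2 : ∃ q, (Nat.primesLE (m + 1 + 1)) ⊆ insert q (Nat.primesLE m) ∨ m + 1 + 1 ≤ 3 := by
        rcases le_or_gt (m + 1 + 1) 3 with h | h
        · exact ⟨0, Or.inr h⟩
        · have h3 : ∃ q, ∀ p, p.Prime → m < p → p ≤ m + 1 + 1 → p = q := by
            rcases Nat.even_or_odd m with hm | hm
            · refine ⟨m + 1, fun p hp h4 h5 => ?_⟩
              by_contra h6
              have h7 : p = m + 1 + 1 := by omega
              have h8 : Even p := by rw [h7]; exact (hm.add_one).add_one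
              have := (hp.even_iff).1 h8
              omega
            · refine ⟨m + 1 + 1, fun p hp h4 h5 => ?_⟩
              by_contra h6
              have h7 : p = m + 1 := by omega
              have h8 : Even p := by rw [h7]; exact hm.add_one
              have := (hp.even_iff).1 h8
              omega
          obtain ⟨q, hq⟩ := h3
          refine ⟨q, Or.inl ?_⟩
          intro p hp
          rw [Nat.mem_primesLE] at hp
          rw [mem_insert, Nat.mem_primesLE]
          by_cases h : p ≤ m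
          · exact Or.inr ⟨h, hp.2⟩
          · exact Or.inl (hq p hp.2 (by omega) hp.1)
      obtain ⟨q, hq | hq⟩ := h2
      · have := card_le_card hq
        have h4 := card_insert_le q (Nat.primesLE m)
        have := ih.1
        omega
      · have : m = 1 := by omega
        subst this
        decide
  exact (h m hm).1

theorem psi_sub_theta_le' (n : ℕ) (hn : 1 ≤ n) :
    Chebyshev.psi n - Chebyshev.theta n ≤ (Real.sqrt n + 1) / 2 * Real.log n := by
  rw [Chebyshev.psi_eq_sum_mul_log_prime, Chebyshev.theta_eq_sum_primesLE_log, ← sum_sub_distrib]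
  have hs : 1 ≤ n.sqrt := Nat.le_sqrt.2 (by simpa using hn)
  have hsub : Nat.primesLE n.sqrt ⊆ Nat.primesLE n := by
    intro p hp
    rw [Nat.mem_primesLE] at hp ⊢
    exact ⟨hp.1.trans (Nat.sqrt_le_self n), hp.2⟩
  have h0 : ∑ p ∈ Nat.primesLE n, ((Nat.log p n : ℝ) * Real.log p - Real.log p)
      = ∑ p ∈ Nat.primesLE n.sqrt, ((Nat.log p n : ℝ) * Real.log p - Real.log p) := by
    symm
    apply sum_subset hsub
    intro p hp hnp
    rw [Nat.mem_primesLE] at hp hnp
    have hlt : n.sqrt < p := by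
      by_contra h
      push Not at h
      exact hnp ⟨h, hp.2⟩
    have h1 : n < p * p := Nat.sqrt_lt.1 hlt
    have h2 : Nat.log p n = 1 := by
      rw [Nat.log_eq_iff]
      · refine ⟨by simp; exact hp.1, by rw [sq]; exact h1⟩
      · left; norm_num
    rw [h2]; simp
  rw [h0]
  have h1 : ∀ p ∈ Nat.primesLE n.sqrt, ((Nat.log p n : ℝ) * Real.log p - Real.log p) ≤ Real.log n := by
    intro p hp
    rw [Nat.mem_primesLE] at hp
    have hp0 : (0 : ℝ) < p := by exact_mod_cast hp.2.pos
    have h2 : (Nat.log p n : ℝ) * Real.log p ≤ Real.log n := by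
      rw [← Real.log_pow]
      apply Real.log_le_log (by positivity)
      exact_mod_cast Nat.pow_log_le_self p (by omega)
    have h3 : 0 ≤ Real.log p := Real.log_natCast_nonneg p
    linarith only [h2, h3]
  refine (sum_le_sum h1).trans ?_
  rw [sum_const, nsmul_eq_mul]
  apply mul_le_mul_of_nonneg_right _ (Real.log_natCast_nonneg n)
  have h4 := card_primesLE_le n.sqrt hs
  have h5 : (2 : ℝ) * (Nat.primesLE n.sqrt).card ≤ n.sqrt + 1 := by exact_mod_cast h4
  have h6 : (n.sqrt : ℝ) ≤ Real.sqrt n := Real.nat_sqrt_le_real_sqrt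
  linarith only [h5, h6]

theorem Mt_le (n : ℕ) (hn : 1024 ≤ n) : Mt n ≤ Real.log n + 0.0818 := by
  have hn0 : (0 : ℝ) < n := by exact_mod_cast (by omega : 0 < n)
  have hnr : (1024 : ℝ) ≤ n := by exact_mod_cast hn
  have h1 : n * Mt n ≤ ∑ d ∈ Ioc 0 n, Λ d * ((n / d : ℕ) : ℝ) + ∑ d ∈ Ioc 0 n, Λ d * hf n d := by
    unfold Mt
    rw [mul_sum, ← sum_add_distrib]
    apply sum_le_sum
    intro d hd
    rw [mem_Ioc] at hd
    have := frac_le hd.1 hd.2
    have := mul_le_mul_of_nonneg_left this (ArithmeticFunction.vonMangoldt_nonneg (n := d))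
    calc (n : ℝ) * (Λ d / d) = Λ d * (n / d) := by ring
      _ ≤ _ := by linarith only [this]
  rw [← log_fact_eq] at h1
  have h2 := log_fact_le n (by omega)
  -- the fractional part sum
  have h3 : ∑ d ∈ Ioc 0 n, Λ d * hf n d
      ≤ ∑ d ∈ Ioc 0 n, (if d.Prime then Real.log d else 0) * hf n d
        + (Chebyshev.psi n - Chebyshev.theta n) := by
    have e1 : Chebyshev.psi n - Chebyshev.theta n
        = ∑ d ∈ Ioc 0 n, (Λ d - (if d.Prime then Real.log d else 0)) := by
      rw [sum_sub_distrib, Chebyshev.psi, Chebyshev.theta, sum_filter]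
      simp
    rw [e1, ← sum_add_distrib]
    apply sum_le_sum
    intro d hd
    rw [mem_Ioc] at hd
    have k1 := hf_le_one (n := n) hd.1
    have k2 : 0 ≤ Λ d - (if d.Prime then Real.log d else 0) := by
      split_ifs with hp
      · rw [ArithmeticFunction.vonMangoldt_apply_prime hp]; simp
      · simpa using ArithmeticFunction.vonMangoldt_nonneg
    nlinarith only [k1, k2]
  have h4 : ∑ d ∈ Ioc 0 n, (if d.Prime then Real.log d else 0) * hf n d
      ≤ ∑ d ∈ Ioc 0 n, Real.log 4 * hf n d + 0 * hf n (0 + 1) := by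
    apply abel_le (Nat.zero_le n) le_rfl
    · intro k hk1 hk2; exact hf_nonneg hk1 hk2
    · exact hf_nonneg (by omega) (by omega)
    · intro k hk1 hk2; exact hf_anti hk1 hk2
    · intro m _ _
      have := Chebyshev.theta_le_log4_mul_x (x := (m : ℝ)) (by positivity)
      rw [Chebyshev.theta, sum_filter] at this
      simp only [Nat.floor_natCast] at this
      simp only [sum_const, Nat.card_Ioc, nsmul_eq_mul, Nat.sub_zero, add_zero]
      linarith
  rw [← mul_sum] at h4
  have h5 := sum_hf_le n (by omega)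
  have h6 := psi_sub_theta_le' n (by omega)
  -- numerical bounds
  have l2 := Real.log_two_lt_d9
  have l2' := Real.log_two_gt_d9
  have l4 : Real.log 4 = 2 * Real.log 2 := by
    rw [show (4 : ℝ) = 2 ^ 2 by norm_num, Real.log_pow]; norm_num
  have l4pos : 0 < Real.log 4 := by rw [l4]; linarith only [l2, l2']
  have hs32 : (32 : ℝ) ≤ Real.sqrt n := by
    rw [show (32 : ℝ) = Real.sqrt 1024 by
      rw [show (1024 : ℝ) = 32 ^ 2 by norm_num, Real.sqrt_sq (by norm_num)]]
    exact Real.sqrt_le_sqrt hnr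
  have hss : Real.sqrt n * Real.sqrt n = n := Real.mul_self_sqrt hn0.le
  have hlog : Real.log n ≤ 0.21661 * Real.sqrt n := by
    have hanti := Real.log_div_sqrt_antitoneOn
    have he : Real.exp 2 ≤ 1024 := by
      have := Real.exp_one_lt_d9
      have h : Real.exp 2 = Real.exp 1 * Real.exp 1 := by rw [← Real.exp_add]; norm_num
      rw [h]
      have := Real.exp_pos 1
      nlinarith
    have := hanti (Set.mem_Ici.2 he) (Set.mem_Ici.2 (he.trans hnr)) hnr
    simp only at this
    have e1 : Real.sqrt 1024 = 32 := by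
      rw [show (1024 : ℝ) = 32 ^ 2 by norm_num, Real.sqrt_sq (by norm_num)]
    have e2 : Real.log 1024 = 10 * Real.log 2 := by
      rw [show (1024 : ℝ) = 2 ^ 10 by norm_num, Real.log_pow]; norm_num
    rw [e1, e2] at this
    have hspos : 0 < Real.sqrt n := by linarith only [l2, l2', hs32]
    rw [div_le_iff₀ hspos] at this
    refine this.trans ?_
    apply mul_le_mul_of_nonneg_right _ hspos.le
    linarith only [l2, l2']
  have hlog0 : 0 ≤ Real.log n := Real.log_natCast_nonneg n
  have h7 : (Real.sqrt n + 1) / 2 * Real.log n ≤ 0.11169 * n := by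
    calc (Real.sqrt n + 1) / 2 * Real.log n ≤ (Real.sqrt n + 1) / 2 * (0.21661 * Real.sqrt n) :=
          mul_le_mul_of_nonneg_left hlog (by positivity)
      _ = 0.108305 * (Real.sqrt n * Real.sqrt n) + 0.108305 * Real.sqrt n := by ring
      _ ≤ 0.11169 * n := by
        rw [hss]
        nlinarith only [hnr, hss, l2, l2', hs32]
  have h8 : Real.log n ≤ 0.00677 * n := by nlinarith only [hnr, hss, hlog, l2, l2', hs32]
  have h9 : Real.log 4 * (∑ d ∈ Ioc 0 n, hf n d) ≤ Real.log 4 * (n * Real.log 2 + 1) :=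
    mul_le_mul_of_nonneg_left h5 l4pos.le
  have h10 : Real.log 4 * (n * Real.log 2 + 1) ≤ 0.96091 * n + 1.3863 := by
    rw [l4]
    have : Real.log 2 * Real.log 2 ≤ 0.480453015 := by nlinarith only [l2, l2']
    nlinarith only [hnr, l2, l2', this]
  have h11 : n * Mt n ≤ n * (Real.log n + 0.0818) := by nlinarith only [hnr, h1, h2, h3, h4, h6, l2, l2', h7, h8, h9, h10]
  exact le_of_mul_le_mul_left h11 hn0

end Pool.Agent.H91.Gold
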